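import Mathlib
import Pool.Agent.Helper58.QT.Bridge

set_option autoImplicit false

namespace Pool.Agent.Results.MP_78106d_an.FaceImpliesQD

open QTS

universe u

/-- Let `A` be a separable exact unital C*-algebra with a faithful amenable trace. If the
quasidiagonal traces on the single C*-algebra `D(A)` of continuous functions `f : [0,1] -> M_2(A)` with
`f(0)` scalar and `f(1)` diagonal form a face, then every amenable trace on `A` is quasidiagonal. -/
theorem result (A : Type u) [CStarAlgebra A] [PartialOrder A] [StarOrderedRing A]
    [TopologicalSpace.SeparableSpace A] (hA : Exact A) (τ₀ : Trace A) (hf : Faithful τ₀)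
    (ham₀ : Amenable τ₀) (hface : FaceQD (DAlg A)) (τ : Trace A) (ham : Amenable τ) :
    Quasidiagonal τ :=
  final A hA τ₀ hf ham₀ hface τ ham

end Pool.Agent.Results.MP_78106d_an.FaceImpliesQD
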